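import Pool.Agent.X119.MilCl

/-!
# Small torsion in the class groups of `ℚ(√y)` and `ℚ(√-y)` for all `y = ⌊θ ^ (c ^ n)⌋`

Let `c > 2`. The `θ > 1` such that for all large `n` the integer `y = ⌊θ ^ (c ^ n)⌋` is squarefree and `≡ 1` modulo `4`
(so `y` and `-4 y` are the discriminants of `ℚ(√y)` and `ℚ(√-y)`), and such that for all `l ≥ 5` and `δ > 0`, for all
large `n`, the class groups of the quadratic fields of the discriminants `y` and `-4 y` have at most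
`y ^ (1/2 - (3/2 - 1/c) / (l + 1) + δ)` elements killed by `l`, form a set of Hausdorff dimension `1` in each open set
that meets `(1, ∞)`.

The input is the mean value theorem `Pool.Agent.Y159.QS.short'` of the starting library for discriminants in short
intervals (starting result `QuadraticShortIntervals`); the Cantor set argument is `Pool.Agent.X10.ML` (helper10).
-/

set_option autoImplicit false

namespace Pool.Agent.Results.MP_16912e_nt.MillsSequences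

open NumberField

/-- All quadratic fields of discriminant `D` have at most `B` ideal classes killed by `l`. -/
def SmallTorsion (l : ℕ) (B : ℝ) (D : ℤ) : Prop :=
  ∀ (K : Type) [Field K] [NumberField K], Module.finrank ℚ K = 2 → NumberField.discr K = D →
    (Nat.card {c : ClassGroup (𝓞 K) // c ^ l = 1} : ℝ) ≤ B

/-- the exponent `1/2 - (3/2 - 1/c) / (l + 1)` -/
noncomputable def expo (c : ℝ) (l : ℕ) : ℝ := 1 / 2 - (3 / 2 - 1 / c) / ((l : ℝ) + 1)

/-- **Small torsion along doubly exponential sequences of discriminants.** -/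
theorem result (c : ℝ) (hc : 2 < c) (U : Set ℝ) (hU : IsOpen U) (hne : (U ∩ Set.Ioi 1).Nonempty) :
    dimH {θ : ℝ | θ ∈ U ∧ 1 < θ ∧
      (∃ N : ℕ, ∀ n : ℕ, N ≤ n → Squarefree ⌊θ ^ (c ^ n)⌋₊ ∧ ⌊θ ^ (c ^ n)⌋₊ % 4 = 1) ∧
      ∀ l : ℕ, 5 ≤ l → ∀ δ : ℝ, 0 < δ → ∃ N : ℕ, ∀ n : ℕ, N ≤ n →
        SmallTorsion l ((⌊θ ^ (c ^ n)⌋₊ : ℝ) ^ (expo c l + δ)) (⌊θ ^ (c ^ n)⌋₊ : ℤ) ∧
        SmallTorsion l ((⌊θ ^ (c ^ n)⌋₊ : ℝ) ^ (expo c l + δ)) (-4 * (⌊θ ^ (c ^ n)⌋₊ : ℤ))} = 1 := by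
  apply le_antisymm
  · refine (dimH_mono (Set.subset_univ _)).trans ?_
    rw [Real.dimH_univ]
  · rw [← Pool.Agent.X119.Mil.cl_main c hc U hU hne]
    apply dimH_mono
    rintro θ ⟨t1, t2, t3⟩
    refine ⟨t1, t2, ?_, fun l hl δ hδ => ?_⟩
    · obtain ⟨N, hN⟩ := t3 0
      exact ⟨N, fun n hn => ⟨(hN n hn).1, (hN n hn).2.1⟩⟩
    · obtain ⟨j₀, hj₀⟩ := exists_nat_gt (1 / δ)
      obtain ⟨N, hN⟩ := t3 (max l j₀)
      refine ⟨N, fun n hn => ?_⟩
      obtain ⟨-, h1, h2⟩ := hN n hn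
      obtain ⟨g1, g2⟩ := h2 l hl (le_max_left _ _)
      have hy : (1 : ℝ) ≤ (⌊θ ^ (c ^ n)⌋₊ : ℝ) := by
        have : 1 ≤ ⌊θ ^ (c ^ n)⌋₊ := by omega
        exact_mod_cast this
      have hle : (⌊θ ^ (c ^ n)⌋₊ : ℝ) ^ (Pool.Agent.X119.Mil.ex c l + 1 / (((max l j₀ : ℕ) : ℝ) + 1)) ≤
          (⌊θ ^ (c ^ n)⌋₊ : ℝ) ^ (expo c l + δ) := by
        apply Real.rpow_le_rpow_of_exponent_le hy
        have e1 : 1 / (((max l j₀ : ℕ) : ℝ) + 1) ≤ δ := by
          rw [div_le_iff₀ (by positivity)]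
          rw [div_lt_iff₀ hδ] at hj₀
          have : (j₀ : ℝ) ≤ ((max l j₀ : ℕ) : ℝ) := by exact_mod_cast le_max_right _ _
          nlinarith
        have e2 : Pool.Agent.X119.Mil.ex c l = expo c l := rfl
        linarith
      exact ⟨fun K _ _ k1 k2 => (g1 K k1 k2).trans hle, fun K _ _ k1 k2 => (g2 K k1 k2).trans hle⟩

end Pool.Agent.Results.MP_16912e_nt.MillsSequences
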