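import Pool.Agent.X32.Cls.Sim

/-!
# Simultaneous torsion in the class groups of several imaginary quadratic fields with few ramified primes

For every `h` there are `t` and `κ > 0` such that for all `K` and all large `X` the following holds for ALL integers
`M_0, ..., M_h` and `g_0, ..., g_h ≥ 2` with `X ≤ M_i ^ (g_i) ≤ X ^ (3/2)` and `M_0 ^ (g_0) ≤ K X`: there are at least
`κ X / (log X) ^ (h + 2)` primes `p ∈ (X / 2, X]` such that `4 M_0 ^ (g_0) - p` has at most two prime factors and, for
EVERY `i`, the imaginary quadratic field of the square root of `- p (4 M_i ^ (g_i) - p)` has a discriminant with at most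
`t` prime factors and contains an ideal of norm `M_i` whose class has the exact order `2 g_i`. The numbers `t` and `κ`
do not depend on the `M_i` and the `g_i`. (Under the prime tuples conjecture the order of magnitude of the number of
the `p` with almost primes `4 M_i ^ (g_i) - p` is right.)

For example, with `g_i = l` the class groups of these `h + 1` fields have nontrivial `l`-torsion simultaneously, for
any given `M_0, ..., M_h` of about the same size.
-/

set_option autoImplicit false

namespace Pool.Agent.Results.MP_16912e_nt.SimultaneousTorsion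

open NumberField

/-- `K` has a nonzero ideal of norm `M` whose class has the exact order `m` -/
def NormClass (K : Type) [Field K] [NumberField K] (M m : ℕ) : Prop :=
  ∃ I : nonZeroDivisors (Ideal (𝓞 K)), Ideal.absNorm (I : Ideal (𝓞 K)) = M ∧ orderOf (ClassGroup.mk0 I) = m

/-- every quadratic field containing a square root of `-D` has a discriminant with at most `t` prime factors and an
ideal of norm `M` whose class has the exact order `m` -/
def Torsion (D M m t : ℕ) : Prop :=
  ∀ (K : Type) [Field K] [NumberField K], Module.finrank ℚ K = 2 → (∃ s : K, s ^ 2 = -(D : K)) →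
    (discr K).natAbs.primeFactorsList.length ≤ t ∧ NormClass K M m

/-- the conditions on the prime `p` -/
def Good (h X t : ℕ) (M g : Fin (h + 1) → ℕ) (p : ℕ) : Prop :=
  p.Prime ∧ X < 2 * p ∧ p ≤ X ∧ (4 * M 0 ^ g 0 - p).primeFactorsList.length ≤ 2 ∧
    ∀ i, Torsion (p * (4 * M i ^ g i - p)) (M i) (2 * g i) t

theorem result (h : ℕ) : ∃ t : ℕ, ∃ κ : ℝ, 0 < κ ∧ ∀ K : ℕ, ∃ X₀ : ℕ, ∀ X : ℕ, X₀ ≤ X → ∀ M g : Fin (h + 1) → ℕ,
    (∀ i, 2 ≤ g i ∧ X ≤ M i ^ g i ∧ (M i ^ g i) ^ 2 ≤ X ^ 3) → M 0 ^ g 0 ≤ K * X → ∃ S : Finset ℕ,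
      κ * X / Real.log X ^ (h + 2) ≤ (S.card : ℝ) ∧ ∀ p ∈ S, Good h X t M g p :=
  Pool.Agent.X32.Cls.simul h

end Pool.Agent.Results.MP_16912e_nt.SimultaneousTorsion
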