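import Pool.Agent.X20.Tr.Few
import Pool.Agent.X20.Tr.Disc
import Pool.Agent.Y159.QS.Fin

/-!
# Small `l`-torsion in the class groups of the quadratic fields `ℚ(√m)`, for almost all of the integers `m = h ± ⌊α n ^ c⌋`
-/

set_option autoImplicit false

namespace Pool.Agent.Results.MP_16912e_nt.SparseTorsion

open NumberField Finset

/-- The number of the elements of the class group of `K` which are killed by `l`. -/
noncomputable def torsion (l : ℕ) (K : Type) [Field K] [NumberField K] : ℕ := Nat.card {c : ClassGroup (𝓞 K) // c ^ l = 1}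

/-- the exponent `1 / 2 - 3 / (2 l + 2)` -/
noncomputable def expo (l : ℕ) : ℝ := 1 / 2 - 3 / (2 * (l : ℝ) + 2)

/-- If `m` is not a square, all quadratic fields which contain a square root of `m`, that is, the field `ℚ(√m)`, have at most `|m| ^ b`
ideal classes killed by `l`. -/
def Small (l : ℕ) (b : ℝ) (m : ℤ) : Prop :=
  ¬ IsSquare m → ∀ (K : Type) [Field K] [NumberField K], Module.finrank ℚ K = 2 → (∃ x : K, x ^ 2 = (m : K)) →
    (torsion l K : ℝ) ≤ |(m : ℝ)| ^ b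

/-- a number field -/
structure NF where
  /-- the field -/
  K : Type
  [f : Field K]
  [nf : NumberField K]

attribute [instance] NF.f NF.nf

lemma expo_nonneg (l : ℕ) (hl : 4 ≤ l) : 0 ≤ expo l := by
  unfold expo
  have h1 : (4 : ℝ) ≤ l := by exact_mod_cast hl
  have h2 : 3 / (2 * (l : ℝ) + 2) ≤ 1 / 2 := by
    rw [div_le_div_iff₀ (by positivity) (by norm_num)]
    linarith
  linarith

lemma mean (l : ℕ) (hl : 4 ≤ l) (ε : ℝ) (hε : 0 < ε) : ∃ C : ℝ, 0 < C ∧ ∀ X : ℝ, 1 ≤ X →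
    ∀ (S : Finset ℤ) (F : ℤ → NF), (∀ D ∈ S, |(D : ℝ)| ≤ X ∧ Module.finrank ℚ (F D).K = 2 ∧ discr (F D).K = D) →
      ∑ D ∈ S, (torsion l (F D).K : ℝ) ≤ C * X ^ (1 + expo l + ε) := by
  obtain ⟨C, hC, h⟩ := Pool.Agent.Y159.QS.full l 1 le_rfl (by omega) ε hε
  refine ⟨C, hC, fun X hX S F hS => ?_⟩
  have h1 := h X hX S (fun D => (F D).K) hS
  have e : (1 + ((1 : ℕ) : ℝ) / 2 - 3 * ((1 : ℕ) : ℝ) / (2 * ((l : ℝ) + ((1 : ℕ) : ℝ))) + ε) = 1 + expo l + ε := by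
    unfold expo
    push_cast
    rw [show (2 : ℝ) * (l + 1) = 2 * l + 2 by ring]
    ring
  rw [e] at h1
  refine le_trans (le_of_eq (sum_congr rfl fun D _ => ?_)) h1
  rw [pow_one]
  rfl

/-- the exceptional integers -/
lemma count (l : ℕ) (hl : 4 ≤ l) (η : ℝ) (hη : 0 < η) : ∃ C : ℝ, 0 < C ∧ ∀ N : ℕ, 1 ≤ N →
    ({k : ℤ | ¬ Small l (expo l + η) k ∧ (N : ℤ) < 2 * |k| ∧ |k| ≤ N}.ncard : ℝ) ≤ C * (N : ℝ) ^ (1 - η / 2) := by
  classical
  obtain ⟨C, hC, h⟩ := mean l hl (η / 2) (by positivity)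
  have he := expo_nonneg l hl
  have hb : 0 ≤ expo l + η := by linarith
  refine ⟨2 * (C * 4 ^ (1 + expo l + η / 2) * 2 ^ (expo l + η)), by positivity, fun N hN => ?_⟩
  have hN1 : (1 : ℝ) ≤ N := by exact_mod_cast hN
  have hN0 : (0 : ℝ) < N := by linarith
  -- one multiplier
  have one : ∀ f : ℕ, 1 ≤ f → ∀ S : Finset ℤ, (∀ m ∈ S, ((N : ℤ) < 2 * |m| ∧ |m| ≤ N) ∧
      ∃ Q : NF, Module.finrank ℚ Q.K = 2 ∧ 4 * m = (f : ℤ) ^ 2 * discr Q.K ∧ |(m : ℝ)| ^ (expo l + η) < (torsion l Q.K : ℝ)) →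
      (S.card : ℝ) ≤ C * 4 ^ (1 + expo l + η / 2) * 2 ^ (expo l + η) * (N : ℝ) ^ (1 - η / 2) * (1 / (f : ℝ) ^ 2) := by
    intro f hf S hS
    have hf1 : (1 : ℝ) ≤ f := by exact_mod_cast hf
    have hf0 : (0 : ℝ) < f := by linarith
    have hfz : (0 : ℤ) < (f : ℤ) ^ 2 := by positivity
    rcases S.eq_empty_or_nonempty with rfl | ⟨m₀, hm₀⟩
    · rw [card_empty, Nat.cast_zero]
      positivity
    obtain ⟨d, hd⟩ : ∃ d : ℤ → ℤ, d = fun m => 4 * m / (f : ℤ) ^ 2 := ⟨_, rfl⟩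
    have hdm : ∀ m ∈ S, 4 * m = (f : ℤ) ^ 2 * d m := by
      intro m hm
      obtain ⟨-, Q, h1, h2, h3⟩ := hS m hm
      rw [hd]
      beta_reduce
      rw [h2, Int.mul_ediv_cancel_left _ hfz.ne']
    have hex : ∀ D : ℤ, ∃ Q : NF, ∀ m ∈ S, D = d m → (Module.finrank ℚ Q.K = 2 ∧ discr Q.K = D ∧
        |(m : ℝ)| ^ (expo l + η) < (torsion l Q.K : ℝ)) := by
      intro D
      by_cases hD : ∃ m ∈ S, D = d m
      · obtain ⟨m, hm, hD⟩ := hD
        obtain ⟨-, Q, h1, h2, h3⟩ := hS m hm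
        refine ⟨Q, fun m' hm' hD' => ?_⟩
        have h4 : m' = m := by
          have h5 := hdm m hm
          have h6 := hdm m' hm'
          rw [← hD] at h5
          rw [← hD'] at h6
          omega
        subst h4
        refine ⟨h1, ?_, h3⟩
        rw [hD']
        have h5 := hdm _ hm
        rw [h2] at h5
        exact mul_left_cancel₀ hfz.ne' h5
      · exact ⟨⟨ℚ⟩, fun m hm hD' => absurd ⟨m, hm, hD'⟩ hD⟩
    choose Q hQ using hex
    have hinj : Set.InjOn d (S : Set ℤ) := by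
      intro m hm m' hm' hmm
      have h5 := hdm m hm
      have h6 := hdm m' hm'
      rw [hmm] at h5
      omega
    have hsize : ∀ m ∈ S, |((d m : ℤ) : ℝ)| ≤ 4 * N / (f : ℝ) ^ 2 := by
      intro m hm
      rw [le_div_iff₀ (by positivity)]
      have h5 : (4 : ℝ) * m = (f : ℝ) ^ 2 * ((d m : ℤ) : ℝ) := by exact_mod_cast hdm m hm
      have h6 : |(m : ℝ)| ≤ N := by
        rw [← Int.cast_abs]
        exact_mod_cast (hS m hm).1.2
      have h7 : |(4 : ℝ) * m| = |(f : ℝ) ^ 2 * ((d m : ℤ) : ℝ)| := by rw [h5]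
      rw [abs_mul, abs_mul, abs_of_pos (by norm_num : (0 : ℝ) < 4), abs_of_pos (by positivity : (0 : ℝ) < (f : ℝ) ^ 2)] at h7
      linarith
    have hX : 1 ≤ 4 * N / (f : ℝ) ^ 2 := by
      refine le_trans ?_ (hsize m₀ hm₀)
      have h5 := hdm m₀ hm₀
      have h6 : d m₀ ≠ 0 := by
        intro h0
        rw [h0, mul_zero] at h5
        have := (hS m₀ hm₀).1.1
        have h7 : m₀ = 0 := by omega
        rw [h7] at this
        simp at this
        omega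
      rw [← Int.cast_abs]
      exact_mod_cast Int.one_le_abs h6
    have h1 := h (4 * N / (f : ℝ) ^ 2) hX (S.image d) Q (by
      intro D hD
      rw [mem_image] at hD
      obtain ⟨m, hm, rfl⟩ := hD
      exact ⟨hsize m hm, (hQ _ m hm rfl).1, (hQ _ m hm rfl).2.1⟩)
    rw [sum_image hinj] at h1
    have h2 : ∀ m ∈ S, ((N : ℝ) / 2) ^ (expo l + η) ≤ (torsion l (Q (d m)).K : ℝ) := by
      intro m hm
      refine le_trans ?_ (hQ _ m hm rfl).2.2.le
      apply Real.rpow_le_rpow (by positivity) _ hb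
      have h3 : (N : ℝ) < 2 * |(m : ℝ)| := by
        rw [← Int.cast_abs]
        exact_mod_cast (hS m hm).1.1
      linarith
    have h3 := (sum_le_sum h2).trans h1
    rw [sum_const, nsmul_eq_mul] at h3
    have h4 : 0 < ((N : ℝ) / 2) ^ (expo l + η) := by positivity
    have h5 : (4 * (N : ℝ) / (f : ℝ) ^ 2) ^ (1 + expo l + η / 2) ≤
        4 ^ (1 + expo l + η / 2) * (N : ℝ) ^ (1 + expo l + η / 2) * (1 / (f : ℝ) ^ 2) := by
      rw [show 4 * (N : ℝ) / (f : ℝ) ^ 2 = 4 * (N : ℝ) * (1 / (f : ℝ) ^ 2) by ring,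
        Real.mul_rpow (by positivity) (by positivity), Real.mul_rpow (by norm_num) hN0.le]
      apply mul_le_mul_of_nonneg_left _ (by positivity)
      have h6 : (1 : ℝ) / (f : ℝ) ^ 2 ≤ 1 := by
        rw [div_le_one (by positivity)]
        nlinarith
      calc (1 / (f : ℝ) ^ 2) ^ (1 + expo l + η / 2) ≤ (1 / (f : ℝ) ^ 2) ^ (1 : ℝ) :=
            Real.rpow_le_rpow_of_exponent_ge (by positivity) h6 (by linarith)
        _ = 1 / (f : ℝ) ^ 2 := Real.rpow_one _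
    have h6 : ((N : ℝ) / 2) ^ (expo l + η) * 2 ^ (expo l + η) = (N : ℝ) ^ (expo l + η) := by
      rw [← Real.mul_rpow (by positivity) (by norm_num)]
      congr 1
      ring
    have h7 : (N : ℝ) ^ (1 + expo l + η / 2) = (N : ℝ) ^ (expo l + η) * (N : ℝ) ^ (1 - η / 2) := by
      rw [← Real.rpow_add hN0]
      congr 1
      ring
    have h8 : (S.card : ℝ) * ((N : ℝ) / 2) ^ (expo l + η) ≤
        (C * 4 ^ (1 + expo l + η / 2) * 2 ^ (expo l + η) * (N : ℝ) ^ (1 - η / 2) * (1 / (f : ℝ) ^ 2)) *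
          ((N : ℝ) / 2) ^ (expo l + η) := by
      calc _ ≤ C * (4 * (N : ℝ) / (f : ℝ) ^ 2) ^ (1 + expo l + η / 2) := h3
        _ ≤ C * (4 ^ (1 + expo l + η / 2) * (N : ℝ) ^ (1 + expo l + η / 2) * (1 / (f : ℝ) ^ 2)) :=
            mul_le_mul_of_nonneg_left h5 hC.le
        _ = C * 4 ^ (1 + expo l + η / 2) * (((N : ℝ) / 2) ^ (expo l + η) * 2 ^ (expo l + η)) * (N : ℝ) ^ (1 - η / 2) *
            (1 / (f : ℝ) ^ 2) := by
            rw [h7, h6]
            ring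
        _ = _ := by ring
    exact le_of_mul_le_mul_right h8 h4
  -- the sets
  have hfin : {k : ℤ | ¬ Small l (expo l + η) k ∧ (N : ℤ) < 2 * |k| ∧ |k| ≤ N}.Finite := by
    refine (Set.finite_Icc (-(N : ℤ)) N).subset fun k hk => ?_
    have := abs_le.1 hk.2.2
    exact ⟨this.1, this.2⟩
  obtain ⟨S, hS⟩ : ∃ S : ℕ → Finset ℤ, S = fun (f : ℕ) => hfin.toFinset.filter (fun m => ∃ Q : NF, Module.finrank ℚ Q.K = 2 ∧
    4 * m = (f : ℤ) ^ 2 * discr Q.K ∧ |(m : ℝ)| ^ (expo l + η) < (torsion l Q.K : ℝ)) := ⟨_, rfl⟩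
  have hmem : ∀ f m, m ∈ S f → ((N : ℤ) < 2 * |m| ∧ |m| ≤ N) ∧
      ∃ Q : NF, Module.finrank ℚ Q.K = 2 ∧ 4 * m = (f : ℤ) ^ 2 * discr Q.K ∧ |(m : ℝ)| ^ (expo l + η) < (torsion l Q.K : ℝ) := by
    intro f m hm
    rw [hS, mem_filter, Set.Finite.mem_toFinset] at hm
    exact ⟨hm.1.2, hm.2⟩
  have hcov : hfin.toFinset ⊆ (Icc 1 (4 * N)).biUnion S := by
    intro m hm
    have hm' := hm
    rw [Set.Finite.mem_toFinset] at hm'
    obtain ⟨h1, hr1, hr2⟩ := hm'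
    unfold Small at h1
    push Not at h1
    obtain ⟨hsq, K, i1, i2, h2, ⟨x, hx⟩, h4⟩ := h1
    obtain ⟨f, hf⟩ := Pool.Agent.X20.Tr.four_mul_eq h2 x m hsq hx
    have hm0 : m ≠ 0 := by
      rintro rfl
      exact hsq ⟨0, by simp⟩
    have hf0 : f ≠ 0 := by
      rintro rfl
      rw [zero_pow (by norm_num), zero_mul] at hf
      omega
    have hd0 : discr K ≠ 0 := NumberField.discr_ne_zero K
    have hfa : ((f.natAbs : ℕ) : ℤ) ^ 2 = f ^ 2 := Int.natAbs_sq f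
    have hfle : f.natAbs ≤ 4 * N := by
      have h5 : (f.natAbs : ℤ) ^ 2 * |discr K| = 4 * |m| := by
        rw [hfa, ← abs_of_nonneg (sq_nonneg f), ← abs_mul, ← hf, abs_mul]
        norm_num
      have h6 : 1 ≤ |discr K| := Int.one_le_abs hd0
      have h7 : (1 : ℤ) ≤ f.natAbs := by
        have := Int.natAbs_pos.2 hf0
        exact_mod_cast this
      have h8 : (f.natAbs : ℤ) ≤ 4 * N := by nlinarith
      exact_mod_cast h8
    rw [mem_biUnion]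
    refine ⟨f.natAbs, mem_Icc.2 ⟨Int.natAbs_pos.2 hf0, hfle⟩, ?_⟩
    rw [hS, mem_filter]
    exact ⟨hm, ⟨⟨K⟩, h2, by rw [hfa]; exact hf, h4⟩⟩
  rw [Set.ncard_eq_toFinset_card _ hfin]
  have h5 : (hfin.toFinset.card : ℝ) ≤ ∑ f ∈ Icc 1 (4 * N), ((S f).card : ℝ) := by
    exact_mod_cast (card_le_card hcov).trans card_biUnion_le
  refine h5.trans ?_
  have hK : 0 ≤ C * 4 ^ (1 + expo l + η / 2) * 2 ^ (expo l + η) * (N : ℝ) ^ (1 - η / 2) := by positivity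
  calc _ ≤ ∑ f ∈ Icc 1 (4 * N), C * 4 ^ (1 + expo l + η / 2) * 2 ^ (expo l + η) * (N : ℝ) ^ (1 - η / 2) * (1 / (f : ℝ) ^ 2) :=
        sum_le_sum fun f hf => one f (mem_Icc.1 hf).1 (S f) (fun m hm => hmem f m hm)
    _ = C * 4 ^ (1 + expo l + η / 2) * 2 ^ (expo l + η) * (N : ℝ) ^ (1 - η / 2) * ∑ f ∈ Icc 1 (4 * N), 1 / (f : ℝ) ^ 2 := by
        rw [mul_sum]
    _ ≤ C * 4 ^ (1 + expo l + η / 2) * 2 ^ (expo l + η) * (N : ℝ) ^ (1 - η / 2) * 2 :=
        mul_le_mul_of_nonneg_left (Pool.Agent.X20.Tr.sum_inv_sq _) hK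
    _ = _ := by ring

open Classical in
/-- Let `c > 1`. There are `κ > 0` and a set `E` of reals of Hausdorff dimension at most `1 - κ` with the following property. For every
integer `l ≥ 4` and every `η > 0` there is `δ > 0` such that for every real `α > 0` outside `E`, every integer `h` and every sign `s`, for
all large `N`, all but at most `N ^ (1 - δ)` of the `n ≤ N` have, for `m = h + s ⌊α n ^ c⌋`: `m` is a square or the quadratic field
`ℚ(√m)` (every quadratic field which contains a square root of `m`) has at most `|m| ^ (1 / 2 - 3 / (2 l + 2) + η)` ideal classes killed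
by `l`. -/
theorem result (c : ℝ) (hc : 1 < c) : ∃ κ : ℝ, 0 < κ ∧ κ < 1 ∧ ∃ E : Set ℝ, dimH E ≤ ENNReal.ofReal (1 - κ) ∧
    ∀ l : ℕ, 4 ≤ l → ∀ η : ℝ, 0 < η → ∃ δ : ℝ, 0 < δ ∧ ∀ α : ℝ, 0 < α → α ∉ E → ∀ (h s : ℤ), (s = 1 ∨ s = -1) →
      ∃ N₀ : ℕ, ∀ N : ℕ, N₀ ≤ N → (((Icc 1 N).filter (fun n : ℕ => ¬ Small l (expo l + η)
        (h + s * ((⌊α * (n : ℝ) ^ c⌋₊ : ℕ) : ℤ)))).card : ℝ) ≤ (N : ℝ) ^ (1 - δ) := by
  obtain ⟨κ, hκ0, hκ1, H⟩ := Pool.Agent.X20.Tr.sparse_pow c hc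
  obtain ⟨E, hE, hh⟩ := H (ℕ × ℕ) (fun i m => ¬ Small i.1 (expo i.1 + 1 / ((i.2 : ℝ) + 1)) m)
  refine ⟨κ, hκ0, hκ1, E, hE, fun l hl η hη => ?_⟩
  obtain ⟨j, hj⟩ := exists_nat_one_div_lt (show 0 < min η 1 from lt_min hη one_pos)
  have hj0 : (0 : ℝ) < 1 / ((j : ℝ) + 1) := by positivity
  have hj1 : 1 / ((j : ℝ) + 1) < η := lt_of_lt_of_le hj (min_le_left _ _)
  have hj2 : 1 / ((j : ℝ) + 1) < 1 := lt_of_lt_of_le hj (min_le_right _ _)
  obtain ⟨δ, hδ⟩ : ∃ δ : ℝ, δ = min κ (1 / ((j : ℝ) + 1)) / 8 := ⟨_, rfl⟩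
  have hm := lt_min hκ0 hj0
  have hδ0 : 0 < δ := by rw [hδ]; positivity
  have hδκ : 8 * δ ≤ κ := by rw [hδ]; linarith [min_le_left κ (1 / ((j : ℝ) + 1))]
  have hδj : 8 * δ ≤ 1 / ((j : ℝ) + 1) := by rw [hδ]; linarith [min_le_right κ (1 / ((j : ℝ) + 1))]
  refine ⟨δ / 2, by positivity, fun α hα hαE h s hs => ?_⟩
  obtain ⟨C, hC, hcount⟩ := count l hl (1 / ((j : ℝ) + 1)) hj0
  have hmain := hh α hα hαE (l, j) h s hs (1 / ((j : ℝ) + 1) / 2) C (by positivity) (by linarith)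
    ⟨1, fun N hN => hcount N hN⟩ δ hδ0.le (by linarith) (by linarith)
  obtain ⟨n₀, hn₀⟩ := Pool.Agent.X20.Tr.seq_large hc hα h s hs 1
  have hδ1 : min δ 1 / 2 = δ / 2 := by
    rw [min_eq_left]
    linarith
  rw [← hδ1]
  refine Pool.Agent.X20.Tr.few_add hδ0 n₀ (fun n hn hP => ?_) hmain
  have hlarge := hn₀ n hn
  intro hS
  apply hP
  intro hsq K _ _ hK hx
  exact (hS hsq K hK hx).trans (Real.rpow_le_rpow_of_exponent_le hlarge (by linarith))

end Pool.Agent.Results.MP_16912e_nt.SparseTorsion
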