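import Pool.Agent.Y159.QS.Fin
import Pool.Agent.X35.ZW.Sums

/-!
# The torsion of the class groups of the quadratic fields with discriminants near `α v_i`
-/

set_option autoImplicit false

namespace Pool.Agent.Results.MP_16912e_nt.TorsionNearSequences

open NumberField Finset

/-- The number of the elements of the class group of `K` which are killed by `l`. -/
noncomputable def torsion (l : ℕ) (K : Type) [Field K] [NumberField K] : ℕ := Nat.card {c : ClassGroup (𝓞 K) // c ^ l = 1}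

/-- a number field -/
structure NF where
  K : Type
  [f : Field K]
  [nf : NumberField K]

attribute [instance] NF.f NF.nf

/-- the largest number of elements of order dividing `l` for the discriminant `D` -/
noncomputable def tmax (l : ℕ) (D : ℤ) : ℕ :=
  sSup {x : ℕ | ∃ Q : NF, Module.finrank ℚ Q.K = 2 ∧ NumberField.discr Q.K = D ∧ x = torsion l Q.K}

theorem moment (l r : ℕ) (hr : 1 ≤ r) (hrl : 7 * r ≤ 2 * l) (ε : ℝ) (hε : 0 < ε) : ∃ C : ℝ, 0 < C ∧ ∀ X : ℝ, 1 ≤ X →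
    ∀ (S : Finset ℤ) (F : ℤ → NF), (∀ D ∈ S, |(D : ℝ)| ≤ X ∧ Module.finrank ℚ (F D).K = 2 ∧ NumberField.discr (F D).K = D) →
      ∑ D ∈ S, (torsion l (F D).K : ℝ) ^ r ≤ C * X ^ (1 + (r : ℝ) / 2 - 3 * (r : ℝ) / (2 * ((l : ℝ) + r)) + ε) := by
  obtain ⟨C, hC, h⟩ := Pool.Agent.Y159.QS.full l r hr hrl ε hε
  exact ⟨C, hC, fun X hX S F hS => h X hX S (fun D => (F D).K) hS⟩

theorem tmax_bdd (l : ℕ) (hl : 4 ≤ l) (D : ℤ) :
    BddAbove {x : ℕ | ∃ Q : NF, Module.finrank ℚ Q.K = 2 ∧ NumberField.discr Q.K = D ∧ x = torsion l Q.K} := by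
  obtain ⟨C, hC, h⟩ := moment l 1 le_rfl (by omega) 1 one_pos
  set B : ℝ := C * (max |(D : ℝ)| 1) ^ (1 + ((1 : ℕ) : ℝ) / 2 - 3 * ((1 : ℕ) : ℝ) / (2 * ((l : ℝ) + ((1 : ℕ) : ℝ))) + 1) with hB
  refine ⟨⌈B⌉₊, ?_⟩
  rintro x ⟨Q, h1, h2, rfl⟩
  have h3 := h (max |(D : ℝ)| 1) (le_max_right _ _) {D} (fun _ => Q) (by
    intro D' hD'
    rw [mem_singleton] at hD'
    subst hD'
    exact ⟨le_max_left _ _, h1, h2⟩)
  rw [sum_singleton, pow_one] at h3
  exact_mod_cast h3.trans (Nat.le_ceil B)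

theorem le_tmax (l : ℕ) (hl : 4 ≤ l) (D : ℤ) (Q : NF) (h1 : Module.finrank ℚ Q.K = 2) (h2 : NumberField.discr Q.K = D) :
    torsion l Q.K ≤ tmax l D := le_csSup (tmax_bdd l hl D) ⟨Q, h1, h2, rfl⟩

theorem tmax_mem (l : ℕ) (hl : 4 ≤ l) (D : ℤ) (h0 : tmax l D ≠ 0) :
    ∃ Q : NF, Module.finrank ℚ Q.K = 2 ∧ NumberField.discr Q.K = D ∧ tmax l D = torsion l Q.K := by
  have hne : {x : ℕ | ∃ Q : NF, Module.finrank ℚ Q.K = 2 ∧ NumberField.discr Q.K = D ∧ x = torsion l Q.K}.Nonempty := by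
    by_contra hcon
    rw [Set.not_nonempty_iff_eq_empty] at hcon
    apply h0
    unfold tmax
    rw [hcon]
    simp
  exact Nat.sSup_mem hne (tmax_bdd l hl D)

/-- Let `l ≥ 4` and `r ≥ 1` be integers with `7 r ≤ 2 l`, let `v_i ≥ 1` with `∑ v_i ^ (-t) < ∞` for all `t > τ` (`τ ≥ 0`; for example
`v_i = 2 ^ i`, `τ = 0`), let `0 ≤ θ < 1` and `0 ≤ β ≤ κ`, `κ = 1 + r / 2 - 3 r / (2 (l + r))`. There is a set `E` of reals of
Hausdorff dimension at most `(κ - β + τ) / (1 - θ)` such that for every real `α > 0` outside `E`, all `i ≥ i₀` and all finite sets `S`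
of discriminants `D` of quadratic fields `K_D` (real or imaginary) with `||D| - α v_i| ≤ v_i ^ θ`
`∑_{D ∈ S} |Cl(K_D)[l]| ^ r ≤ v_i ^ β`.
For example, for `r = 1`, `τ = 0` and almost every `α` the mean value of `|Cl(K_D)[l]|` over the quadratic fields with
`||D| - α v_i| ≤ v_i ^ θ` (with respect to the length of the window) is at most `v_i ^ (1 / 2 - 3 / (2 l + 2) + ε)`, for every `θ ≥ 0`. -/
theorem result (l r : ℕ) (hl : 4 ≤ l) (hr : 1 ≤ r) (hrl : 7 * r ≤ 2 * l) (v : ℕ → ℝ) (τ θ β : ℝ) (hv1 : ∀ i, 1 ≤ v i) (hτ : 0 ≤ τ)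
    (hθ0 : 0 ≤ θ) (hθ : θ < 1) (hv : ∀ t : ℝ, τ < t → Summable (fun i => v i ^ (-t))) (hβ0 : 0 ≤ β)
    (hβ : β ≤ 1 + (r : ℝ) / 2 - 3 * (r : ℝ) / (2 * ((l : ℝ) + r))) :
    ∃ E : Set ℝ, dimH E ≤ ENNReal.ofReal ((1 + (r : ℝ) / 2 - 3 * (r : ℝ) / (2 * ((l : ℝ) + r)) - β + τ) / (1 - θ)) ∧
      ∀ α : ℝ, 0 < α → α ∉ E → ∃ i₀ : ℕ, ∀ i : ℕ, i₀ ≤ i → ∀ (S : Finset ℤ) (K : ℤ → Type) [∀ D, Field (K D)] [∀ D, NumberField (K D)],
        (∀ D ∈ S, |(|(D : ℝ)|) - α * v i| ≤ v i ^ θ ∧ Module.finrank ℚ (K D) = 2 ∧ NumberField.discr (K D) = D) →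
          ∑ D ∈ S, (torsion l (K D) : ℝ) ^ r ≤ v i ^ β := by
  classical
  set κ : ℝ := 1 + (r : ℝ) / 2 - 3 * (r : ℝ) / (2 * ((l : ℝ) + r)) with hκ
  set a : ℕ → ℝ := fun n => (tmax l (n : ℤ) : ℝ) ^ r + (tmax l (-(n : ℤ)) : ℝ) ^ r with ha
  have ha0 : ∀ n, 0 ≤ a n := fun n => by positivity
  have hdy : ∀ ε : ℝ, 0 < ε → ∃ C : ℝ, ∀ N : ℕ, 1 ≤ N → ∑ m ∈ Ico N (2 * N), a m ≤ C * (N : ℝ) ^ (κ + ε) := by
    intro ε hε
    obtain ⟨C, hC, h⟩ := moment l r hr hrl ε hε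
    refine ⟨2 * C * 2 ^ (κ + ε), fun N hN => ?_⟩
    have hN1 : (1 : ℝ) ≤ N := by exact_mod_cast hN
    -- the fields
    have hex : ∀ D : ℤ, ∃ Q : NF, tmax l D ≠ 0 → (Module.finrank ℚ Q.K = 2 ∧ NumberField.discr Q.K = D ∧ tmax l D = torsion l Q.K) := by
      intro D
      by_cases h0 : tmax l D = 0
      · exact ⟨⟨ℚ⟩, fun h => absurd h0 h⟩
      · obtain ⟨Q, hQ⟩ := tmax_mem l hl D h0
        exact ⟨Q, fun _ => hQ⟩
    choose Q hQ using hex
    have hsign : ∀ s : ℤ, |s| = 1 → ∑ m ∈ Ico N (2 * N), (tmax l (s * (m : ℤ)) : ℝ) ^ r ≤ C * (2 * N : ℝ) ^ (κ + ε) := by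
      intro s hs
      have hs0 : s ≠ 0 := by
        rintro rfl
        simp at hs
      set S : Finset ℤ := ((Ico N (2 * N)).filter (fun m : ℕ => tmax l (s * (m : ℤ)) ≠ 0)).image (fun m : ℕ => s * (m : ℤ)) with hS
      have h1 := h (2 * N) (by linarith) S Q (by
        intro D hD
        rw [hS, mem_image] at hD
        obtain ⟨m, hm, rfl⟩ := hD
        rw [mem_filter, mem_Ico] at hm
        refine ⟨?_, (hQ _ hm.2).1, (hQ _ hm.2).2.1⟩
        have h2 : |((s * (m : ℤ) : ℤ) : ℝ)| = m := by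
          have h3 : |(s * (m : ℤ) : ℤ)| = m := by rw [abs_mul, hs, one_mul, Nat.abs_cast]
          have h4 : ((|(s * (m : ℤ) : ℤ)| : ℤ) : ℝ) = m := by rw [h3]; simp
          rwa [Int.cast_abs] at h4
        rw [h2]
        have h5 : (m : ℝ) < 2 * N := by exact_mod_cast hm.1.2
        exact h5.le)
      refine le_trans (le_of_eq ?_) h1
      rw [hS, sum_image (by
        intro m _ m' _ hmm
        simp only at hmm
        have := mul_left_cancel₀ hs0 hmm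
        exact_mod_cast this)]
      rw [sum_filter]
      apply sum_congr rfl
      intro m _
      by_cases h0 : tmax l (s * (m : ℤ)) = 0
      · rw [if_neg (by simpa using h0), h0]
        simp only [Nat.cast_zero]
        exact zero_pow (by omega)
      · rw [if_pos h0]
        rw [(hQ _ h0).2.2]
    have h1 := hsign 1 (by norm_num)
    have h2 := hsign (-1) (by norm_num)
    have e : ∑ m ∈ Ico N (2 * N), a m = ∑ m ∈ Ico N (2 * N), (tmax l (1 * (m : ℤ)) : ℝ) ^ r + ∑ m ∈ Ico N (2 * N), (tmax l (-1 * (m : ℤ)) : ℝ) ^ r := by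
      rw [← sum_add_distrib]
      apply sum_congr rfl
      intro m _
      rw [ha]
      simp only [one_mul, neg_mul]
    rw [e]
    have h3 : (2 * N : ℝ) ^ (κ + ε) = 2 ^ (κ + ε) * (N : ℝ) ^ (κ + ε) := Real.mul_rpow (by norm_num) (by linarith)
    rw [h3] at h1 h2
    linarith
  obtain ⟨E, hE, h⟩ := Pool.Agent.X35.ZW.sum_windows a ha0 κ β hβ0 (by linarith) hdy hv1 hτ hv hθ0 hθ
  refine ⟨E, hE, fun α hα hαE => ?_⟩
  obtain ⟨i₀, hi₀⟩ := h α hα hαE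
  refine ⟨i₀, fun i hi S K _ _ hS => ?_⟩
  have h1 := hi₀ i hi (S.image Int.natAbs) (by
    intro n hn
    rw [mem_image] at hn
    obtain ⟨D, hD, rfl⟩ := hn
    have h2 := (hS D hD).1
    have h3 : ((D.natAbs : ℕ) : ℝ) = |(D : ℝ)| := by
      rw [Nat.cast_natAbs, Int.cast_abs]
    rw [h3]
    linarith)
  refine le_trans ?_ h1
  have h2 : ∑ D ∈ S, (torsion l (K D) : ℝ) ^ r ≤ ∑ D ∈ S, (tmax l D : ℝ) ^ r := by
    apply sum_le_sum
    intro D hD
    apply pow_le_pow_left₀ (by positivity)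
    have := le_tmax l hl D ⟨K D⟩ (hS D hD).2.1 (hS D hD).2.2
    exact_mod_cast this
  refine h2.trans ?_
  rw [← sum_fiberwise_of_maps_to (s := S) (t := S.image Int.natAbs) (g := Int.natAbs) (fun D hD => mem_image_of_mem _ hD)]
  apply sum_le_sum
  intro n _
  have h3 : S.filter (fun D => D.natAbs = n) ⊆ {(n : ℤ), -(n : ℤ)} := by
    intro D hD
    rw [mem_filter] at hD
    rw [mem_insert, mem_singleton]
    omega
  refine (sum_le_sum_of_subset_of_nonneg h3 (fun D _ _ => by positivity)).trans ?_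
  by_cases h0 : (n : ℤ) = -(n : ℤ)
  · rw [← h0, pair_eq_singleton, sum_singleton, ha]
    simp only
    have : (0 : ℝ) ≤ (tmax l (-(n : ℤ)) : ℝ) ^ r := by positivity
    linarith
  · rw [sum_pair h0]

end Pool.Agent.Results.MP_16912e_nt.TorsionNearSequences
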